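import Pool.Agent.Helper42.BPX.StC

/-!
# Expansion of small sets in sparse random graphs
-/

set_option autoImplicit false

namespace Pool.Agent.Helper91.BP

open Finset Pool.Agent.Helper42.BPX

noncomputable section

open Classical

variable {n : ℕ}

/-- pairs between `C` and `B` -/
def TT (C B : Finset (Fin n)) : Finset (Sym2 (Fin n)) :=
  ((C ×ˢ B).image (fun x => s(x.1, x.2))) ∩ prs n

lemma TT_sub (C B : Finset (Fin n)) : TT C B ⊆ prs n := inter_subset_right

lemma card_TT (C B : Finset (Fin n)) : (TT C B).card ≤ C.card * B.card := by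
  refine (card_le_card inter_subset_left).trans (card_image_le.trans ?_)
  rw [card_product]

lemma card_pairs (A : Finset (Sym2 (Fin n))) (hA : A ⊆ prs n) (C B : Finset (Fin n)) :
    ∑ v ∈ C, (nb A v ∩ B).card ≤ 2 * (A ∩ TT C B).card := by
  set P := (C ×ˢ B).filter (fun x => Adj A x.1 x.2) with hP
  have h1 : ∑ v ∈ C, (nb A v ∩ B).card = P.card := by
    rw [hP, card_filter, sum_product]
    refine sum_congr rfl fun v _ => ?_
    rw [← card_filter]
    congr 1
    ext x
    simp only [mem_inter, mem_nb, mem_filter]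
    tauto
  have h2 : P.image (fun x => s(x.1, x.2)) ⊆ A ∩ TT C B := by
    intro e he
    rw [mem_image] at he
    obtain ⟨x, hx, rfl⟩ := he
    rw [hP, mem_filter, mem_product] at hx
    have h3 : s(x.1, x.2) ∈ A := hx.2.2
    rw [mem_inter]
    refine ⟨h3, ?_⟩
    unfold TT
    rw [mem_inter, mem_image]
    exact ⟨⟨x, mem_product.2 hx.1, rfl⟩, hA h3⟩
  have h3 : P.card ≤ 2 * (P.image (fun x => s(x.1, x.2))).card := by
    refine card_le_mul_card_image _ 2 fun e he => ?_
    rw [mem_image] at he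
    obtain ⟨y, _, rfl⟩ := he
    have : (P.filter (fun x => s(x.1, x.2) = s(y.1, y.2))) ⊆ {(y.1, y.2), (y.2, y.1)} := by
      intro x hx
      rw [mem_filter] at hx
      have h4 := hx.2
      rw [Sym2.eq_iff] at h4
      rw [mem_insert, mem_singleton]
      rcases h4 with ⟨h4, h5⟩ | ⟨h4, h5⟩
      · left; exact Prod.ext h4 h5
      · right; exact Prod.ext h4 h5
    exact (card_le_card this).trans card_le_two
  rw [h1]
  exact h3.trans (Nat.mul_le_mul_left _ (card_le_card h2))

/-- the deterministic part -/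
lemma det (A : Finset (Sym2 (Fin n))) (hA : A ⊆ prs n) (k : ℕ) (hk : 1000 ≤ k)
    (hE : ¬ Expd A (n / 500) k) :
    ∃ m ∈ Icc 1 (n / 500), ∃ x ∈ powersetCard (m / 10 + 1) (univ : Finset (Fin n)) ×ˢ
      powersetCard m (univ : Finset (Fin n)), 100 * m ≤ k * (m / 10 + 1) ∧ m / 10 + 1 ≤ m ∧
        k * (m / 10 + 1) ≤ 2 * (A ∩ TT x.1 x.2).card := by
  unfold Expd at hE
  push Not at hE
  obtain ⟨B, hB, hB2⟩ := hE
  have h1 : (many A k B).Nonempty := by
    rw [← card_pos]; omega
  obtain ⟨v, hv⟩ := h1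
  rw [mem_many] at hv
  have h2 : k ≤ B.card := hv.trans (card_le_card inter_subset_right)
  have h3 : B.card / 10 + 1 ≤ (many A k B).card := by omega
  obtain ⟨C, hC, hCc⟩ := exists_subset_card_eq h3
  refine ⟨B.card, mem_Icc.2 ⟨by omega, hB⟩, (C, B), ?_, ?_, by omega, ?_⟩
  · rw [mem_product, mem_powersetCard, mem_powersetCard]
    exact ⟨⟨subset_univ _, hCc⟩, subset_univ _, rfl⟩
  · have : 1000 * (B.card / 10 + 1) ≤ k * (B.card / 10 + 1) := Nat.mul_le_mul_right _ hk
    omega
  · refine le_trans ?_ (card_pairs A hA C B)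
    rw [← hCc, mul_comm, ← smul_eq_mul, ← sum_const]
    exact sum_le_sum fun v hv => mem_many.1 (hC hv)

/-- many edges between `C` and `B` are unlikely -/
lemma prob {p : Sym2 (Fin n) → ℝ} (h0 : ∀ e, 0 ≤ p e) (h1 : ∀ e, p e ≤ 1) {a : ℝ} (ha : 0 ≤ a)
    (hp : ∀ e, p e ≤ a / n) {k : ℕ} (hak : a ≤ 41 * k) {m c : ℕ} (hm : 1 ≤ m)
    (hmn : m ≤ n / 500) (hc : 100 * m ≤ k * c) {C B : Finset (Fin n)} (hC : C.card = c)
    (hB : B.card = m) :
    Pr p (prs n) (fun A => k * c ≤ 2 * (A ∩ TT C B).card)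
      ≤ ((223 * (m : ℝ) / n) ^ 50) ^ m := by
  have hn : 500 * m ≤ n := by omega
  have hmR : (0 : ℝ) < m := by exact_mod_cast hm
  have hnR : (0 : ℝ) < n := by
    have : 0 < n := by omega
    exact_mod_cast this
  have hnm : 500 * (m : ℝ) ≤ n := by exact_mod_cast hn
  set u : ℝ := n / (82 * m) with hu
  have hu1 : 1 ≤ u := by
    rw [hu, le_div_iff₀ (by positivity)]
    linarith
  set w : ℝ := Real.sqrt u with hw
  have hw1 : 1 ≤ w := by
    rw [hw]; exact Real.one_le_sqrt.2 hu1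
  have hww : w ^ 2 = u := by rw [hw]; exact Real.sq_sqrt (by linarith)
  have hmk : Pr p (prs n) (fun A => k * c ≤ 2 * (A ∩ TT C B).card)
      ≤ EE p (prs n) (fun A => u ^ (A ∩ TT C B).card) / w ^ (k * c) := by
    refine (Pr_mono (fun e _ => h0 e) (fun e _ => h1 e)
      (E' := fun A => w ^ (k * c) ≤ u ^ (A ∩ TT C B).card) ?_).trans
      (Pr_ge_le (fun e _ => h0 e) (fun e _ => h1 e) (fun A _ => by positivity) (by positivity))
    intro A _ h
    rw [← hww, ← pow_mul]
    exact pow_le_pow_right₀ hw1 h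
  refine hmk.trans ?_
  rw [EE_pow p (TT_sub C B)]
  have h2 : ∏ x ∈ TT C B, (1 + (u - 1) * p x) ≤ Real.exp ((k * c : ℕ) / 2) := by
    calc ∏ x ∈ TT C B, (1 + (u - 1) * p x)
        ≤ ∏ _x ∈ TT C B, Real.exp (u * (a / n)) := by
          refine prod_le_prod (fun e _ => ?_) (fun e _ => ?_)
          · have := mul_nonneg (sub_nonneg.2 hu1) (h0 e); linarith
          · have h3 := Real.add_one_le_exp (u * (a / n))
            have h4 : (u - 1) * p e ≤ u * (a / n) :=
              mul_le_mul (by linarith) (hp e) (h0 e) (by linarith)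
            linarith
      _ = Real.exp ((TT C B).card * (u * (a / n))) := by
          rw [prod_const, ← Real.exp_nat_mul]
      _ ≤ Real.exp ((k * c : ℕ) / 2) := by
          apply Real.exp_le_exp.2
          have h5 : ((TT C B).card : ℝ) ≤ c * m := by
            have := card_TT C B
            rw [hC, hB] at this
            exact_mod_cast this
          calc ((TT C B).card : ℝ) * (u * (a / n)) ≤ (c * m) * (u * (a / n)) :=
                mul_le_mul_of_nonneg_right h5 (by positivity)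
            _ = c * a / 82 := by rw [hu]; field_simp
            _ ≤ c * (41 * k) / 82 := by
                have := mul_le_mul_of_nonneg_left hak (Nat.cast_nonneg (α := ℝ) c)
                linarith
            _ = _ := by push_cast; ring
  have h6 : Real.exp ((k * c : ℕ) / 2) = Real.exp (1 / 2) ^ (k * c) := by
    rw [← Real.exp_nat_mul]; congr 1; ring
  rw [h6] at h2
  refine (div_le_div_of_nonneg_right h2 (by positivity)).trans ?_
  rw [← div_pow]
  have h7 : (Real.exp (1 / 2) / w) ^ 2 = Real.exp 1 * (82 * m) / n := by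
    rw [div_pow, hww, ← Real.exp_nat_mul, hu]
    rw [show ((2 : ℕ) : ℝ) * (1 / 2) = 1 by norm_num]
    field_simp
  have h8 : (Real.exp (1 / 2) / w) ^ 2 ≤ 223 * m / n := by
    rw [h7]
    apply div_le_div_of_nonneg_right _ hnR.le
    have := Real.exp_one_lt_d9
    nlinarith
  have h9 : Real.exp (1 / 2) / w ≤ 1 := by
    have h10 : (Real.exp (1 / 2) / w) ^ 2 ≤ 1 ^ 2 := by
      refine h8.trans ?_
      rw [div_le_iff₀ hnR]
      linarith
    exact (pow_le_pow_iff_left₀ (by positivity) zero_le_one two_ne_zero).1 h10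
  calc (Real.exp (1 / 2) / w) ^ (k * c) ≤ (Real.exp (1 / 2) / w) ^ (100 * m) :=
        pow_le_pow_of_le_one (by positivity) h9 hc
    _ = (((Real.exp (1 / 2) / w) ^ 2) ^ 50) ^ m := by
        rw [← pow_mul, ← pow_mul]
        congr 1
        ring
    _ ≤ _ := by
        gcongr

lemma choose_le (n m : ℕ) (hm : 1 ≤ m) : (n.choose m : ℝ) ≤ (Real.exp 1 * n / m) ^ m := by
  have hmR : (0 : ℝ) < m := by exact_mod_cast hm
  have h1 := Nat.choose_le_pow_div (α := ℝ) m n
  refine h1.trans ?_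
  have h2 := Real.pow_div_factorial_le_exp (m : ℝ) hmR.le m
  have h3 : (0 : ℝ) < m.factorial := by exact_mod_cast Nat.factorial_pos m
  rw [div_pow, mul_pow, ← Real.exp_nat_mul, mul_one]
  rw [div_le_div_iff₀ h3 (by positivity)]
  rw [div_le_iff₀ h3] at h2
  have h4 : (0 : ℝ) ≤ (n : ℝ) ^ m := by positivity
  calc (n : ℝ) ^ m * (m : ℝ) ^ m ≤ (n : ℝ) ^ m * (Real.exp m * m.factorial) :=
        mul_le_mul_of_nonneg_left h2 h4
    _ = _ := by ring

lemma sum_bound (M : ℕ) : ∑ m ∈ range (M + 1), (m : ℝ) * (1 / 2) ^ m = 2 - (M + 2) / 2 ^ M := by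
  induction M with
  | zero => simp
  | succ M ih =>
    rw [sum_range_succ, ih]
    push_cast
    rw [one_div, inv_pow]
    field_simp
    ring

/-- the contribution of the sets of size `m` -/
lemma term {m : ℕ} (hm : 1 ≤ m) (hmn : m ≤ n / 500) (hc : m / 10 + 1 ≤ m) :
    ((powersetCard (m / 10 + 1) (univ : Finset (Fin n)) ×ˢ
      powersetCard m (univ : Finset (Fin n))).card : ℝ) * ((223 * (m : ℝ) / n) ^ 50) ^ m
      ≤ (m / n) * (1 / 2) ^ m := by
  have hn : 500 * m ≤ n := by omega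
  have hmR : (0 : ℝ) < m := by exact_mod_cast hm
  have hnR : (0 : ℝ) < n := by
    have : 0 < n := by omega
    exact_mod_cast this
  have hnm : 500 * (m : ℝ) ≤ n := by exact_mod_cast hn
  set c := m / 10 + 1 with hcdef
  have hc1 : 1 ≤ c := by omega
  have hcR : (0 : ℝ) < c := by exact_mod_cast hc1
  have hcm : (m : ℝ) ≤ 10 * c := by
    have : m ≤ 10 * c := by omega
    exact_mod_cast this
  rw [card_product, card_powersetCard, card_powersetCard, card_univ, Fintype.card_fin]
  push_cast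
  set x : ℝ := m / n with hx
  have hx0 : 0 < x := by positivity
  have hx1 : x ≤ 1 / 500 := by
    rw [hx, div_le_iff₀ hnR]; linarith
  have e1 := choose_le n m hm
  have e2 := choose_le n c hc1
  have e3 : Real.exp 1 * n / m = Real.exp 1 / x := by
    rw [hx]; field_simp
  have e4 : Real.exp 1 * n / c ≤ 10 * Real.exp 1 / x := by
    rw [hx, div_le_div_iff₀ hcR (by positivity)]
    have h5 : Real.exp 1 * n * (m / n) = Real.exp 1 * m := by field_simp
    rw [h5]
    nlinarith [Real.exp_pos 1]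
  have e5 : (1 : ℝ) ≤ 10 * Real.exp 1 / x := by
    rw [le_div_iff₀ hx0]
    nlinarith [Real.add_one_le_exp (1 : ℝ)]
  have e6 : (n.choose c : ℝ) ≤ (10 * Real.exp 1 / x) ^ m := by
    refine e2.trans ((pow_le_pow_left₀ (by positivity) e4 c).trans ?_)
    exact pow_le_pow_right₀ e5 hc
  rw [e3] at e1
  have e7 : (10 * Real.exp 1 / x) * (Real.exp 1 / x) * (223 * (m : ℝ) / n) ^ 50 ≤ x * (1 / 2) := by
    have h8 : 223 * (m : ℝ) / n = 223 * x := by rw [hx]; ring
    rw [h8]
    have h9 : Real.exp 1 * Real.exp 1 ≤ 37 / 5 := by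
      have := Real.exp_one_lt_d9
      have h10 := Real.exp_pos 1
      nlinarith
    have h11 : x ^ 47 ≤ (1 / 500) ^ 47 := pow_le_pow_left₀ hx0.le hx1 47
    have h12 : (10 * Real.exp 1 / x) * (Real.exp 1 / x) * (223 * x) ^ 50
        = x * (10 * 223 ^ 50 * (Real.exp 1 * Real.exp 1) * x ^ 47) := by
      field_simp
    rw [h12]
    apply mul_le_mul_of_nonneg_left _ hx0.le
    calc 10 * 223 ^ 50 * (Real.exp 1 * Real.exp 1) * x ^ 47
        ≤ 10 * 223 ^ 50 * (37 / 5) * (1 / 500) ^ 47 := by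
          gcongr
      _ ≤ 1 / 2 := by norm_num
  calc (n.choose c : ℝ) * (n.choose m : ℝ) * ((223 * (m : ℝ) / n) ^ 50) ^ m
      ≤ (10 * Real.exp 1 / x) ^ m * (Real.exp 1 / x) ^ m * ((223 * (m : ℝ) / n) ^ 50) ^ m := by
        gcongr
    _ = ((10 * Real.exp 1 / x) * (Real.exp 1 / x) * (223 * (m : ℝ) / n) ^ 50) ^ m := by
        rw [mul_pow, mul_pow]
    _ ≤ (x * (1 / 2)) ^ m := pow_le_pow_left₀ (by positivity) e7 m
    _ = x ^ m * (1 / 2) ^ m := mul_pow _ _ _
    _ ≤ x * (1 / 2) ^ m := by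
        apply mul_le_mul_of_nonneg_right _ (by positivity)
        calc x ^ m ≤ x ^ 1 := pow_le_pow_of_le_one hx0.le (by linarith) hm
          _ = x := pow_one x

theorem hExpd : StExpd := by
  refine ⟨1000, fun a k hk ha hak δ hδ => ?_⟩
  obtain ⟨N, hN⟩ := exists_nat_gt (2 / δ)
  refine ⟨N + 1, fun n hn p h0 h1 hp => ?_⟩
  have hnR : (0 : ℝ) < n := by
    have : 0 < n := by omega
    exact_mod_cast this
  set W : ℕ → Finset (Finset (Fin n) × Finset (Fin n)) := fun m =>
    if 100 * m ≤ k * (m / 10 + 1) ∧ m / 10 + 1 ≤ m then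
      powersetCard (m / 10 + 1) (univ : Finset (Fin n)) ×ˢ powersetCard m (univ : Finset (Fin n))
    else ∅ with hW
  have s1 : Pr p (prs n) (fun A => ¬ Expd A (n / 500) k)
      ≤ Pr p (prs n) (fun A => ∃ m ∈ Icc 1 (n / 500), ∃ x ∈ W m,
        k * (m / 10 + 1) ≤ 2 * (A ∩ TT x.1 x.2).card) := by
    refine Pr_mono (fun e _ => h0 e) (fun e _ => h1 e) ?_
    intro A hA hE
    obtain ⟨m, hm, x, hx, hx1, hx2, hx3⟩ := det A hA k hk hE
    refine ⟨m, hm, x, ?_, hx3⟩
    simp only [hW]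
    rw [if_pos ⟨hx1, hx2⟩]
    exact hx
  have s2 : Pr p (prs n) (fun A => ∃ m ∈ Icc 1 (n / 500), ∃ x ∈ W m,
        k * (m / 10 + 1) ≤ 2 * (A ∩ TT x.1 x.2).card)
      ≤ ∑ m ∈ Icc 1 (n / 500), ((m : ℝ) / n) * (1 / 2) ^ m := by
    refine (Pr_exists_le (fun e _ => h0 e) (fun e _ => h1 e) _ _).trans ?_
    refine sum_le_sum fun m hm => ?_
    rw [mem_Icc] at hm
    refine (Pr_exists_le (fun e _ => h0 e) (fun e _ => h1 e) _ _).trans ?_
    by_cases hcase : 100 * m ≤ k * (m / 10 + 1) ∧ m / 10 + 1 ≤ m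
    · have hWm : W m = powersetCard (m / 10 + 1) (univ : Finset (Fin n)) ×ˢ
          powersetCard m (univ : Finset (Fin n)) := by
        simp only [hW]; rw [if_pos hcase]
      rw [hWm]
      refine (sum_le_sum (g := fun _ => ((223 * (m : ℝ) / n) ^ 50) ^ m) fun x hx => ?_).trans ?_
      · rw [mem_product, mem_powersetCard, mem_powersetCard] at hx
        exact prob h0 h1 ha hp hak hm.1 hm.2 hcase.1 hx.1.2 hx.2.2
      · rw [sum_const, nsmul_eq_mul]
        exact term hm.1 hm.2 hcase.2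
    · have hWm : W m = ∅ := by
        simp only [hW]; rw [if_neg hcase]
      rw [hWm, sum_empty]
      positivity
  have s3 : ∑ m ∈ Icc 1 (n / 500), ((m : ℝ) / n) * (1 / 2) ^ m ≤ 2 / n := by
    have h3 : ∑ m ∈ Icc 1 (n / 500), ((m : ℝ) / n) * (1 / 2) ^ m
        ≤ ∑ m ∈ range (n / 500 + 1), ((m : ℝ) / n) * (1 / 2) ^ m := by
      refine sum_le_sum_of_subset_of_nonneg ?_ fun m _ _ => by positivity
      intro m hm
      rw [mem_Icc] at hm
      rw [mem_range]; omega
    refine h3.trans ?_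
    have h4 : ∑ m ∈ range (n / 500 + 1), ((m : ℝ) / n) * (1 / 2) ^ m
        = (∑ m ∈ range (n / 500 + 1), (m : ℝ) * (1 / 2) ^ m) / n := by
      rw [sum_div]
      exact sum_congr rfl fun m _ => by ring
    rw [h4, sum_bound]
    apply div_le_div_of_nonneg_right _ hnR.le
    have : (0 : ℝ) ≤ (((n / 500 : ℕ) : ℝ) + 2) / 2 ^ (n / 500) := by positivity
    linarith
  refine s1.trans (s2.trans (s3.trans ?_))
  rw [div_le_iff₀ hnR]
  have h5 : (N : ℝ) ≤ n := by
    have : N ≤ n := by omega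
    exact_mod_cast this
  rw [div_lt_iff₀ hδ] at hN
  nlinarith

end

end Pool.Agent.Helper91.BP
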